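import Pool.Agent.Helper25.FN.Spec

/-!
Swarm FN (MP_6e521b_an), part ROOT: the implicit function.
-/

set_option autoImplicit false
set_option linter.all false

namespace Pool.Agent.Helper67.FN.ROOT

open MeasureTheory Filter Topology Set
open scoped ContDiff
open Pool.Agent.Helper25.FB.Inj (Entire IsAF FBorel ExpType InPerp star InPStarExp)
open Pool.Agent.Helper25.FN

theorem sm_eval {n : ℕ} (p : Pol n) : ContDiff ℝ ∞ (fun z : V n => MvPolynomial.eval z p) := by
  induction p using MvPolynomial.induction_on with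
  | C a => simp only [MvPolynomial.eval_C]; exact contDiff_const
  | add p q hp hq => simp only [map_add]; exact hp.add hq
  | mul_X p j hp =>
    simp only [map_mul, MvPolynomial.eval_X]
    exact hp.mul (contDiff_apply ℝ ℂ j)

theorem divdiff {n : ℕ} (p : Pol n) : ∃ D : V n × ℝ × V n → ℂ, ContDiff ℝ ∞ D ∧
    (∀ (z : V n) (h : ℝ) (w : V n), MvPolynomial.eval (z + (h : ℂ) • w) p =
      MvPolynomial.eval z p + (h : ℂ) * D (z, h, w)) ∧
    (∀ z w : V n, D (z, 0, w) = ∑ j, w j * MvPolynomial.eval z (MvPolynomial.pderiv j p)) := by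
  induction p using MvPolynomial.induction_on with
  | C a =>
    refine ⟨fun _ => 0, contDiff_const, fun z h w => ?_, fun z w => ?_⟩
    · rw [MvPolynomial.eval_C, MvPolynomial.eval_C, mul_zero, add_zero]
    · simp
  | add p q hp hq =>
    obtain ⟨D1, h1, h2, h3⟩ := hp
    obtain ⟨D2, h4, h5, h6⟩ := hq
    refine ⟨fun x => D1 x + D2 x, h1.add h4, fun z h w => ?_, fun z w => ?_⟩
    · rw [map_add, map_add, h2, h5]
      ring
    · show D1 (z, 0, w) + D2 (z, 0, w) = _
      rw [h3, h6, ← Finset.sum_add_distrib]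
      refine Finset.sum_congr rfl fun j _ => ?_
      rw [map_add, map_add]
      ring
  | mul_X p j hp =>
    obtain ⟨D1, h1, h2, h3⟩ := hp
    refine ⟨fun x => D1 x * (x.1 j + (x.2.1 : ℂ) * x.2.2 j) + MvPolynomial.eval x.1 p * x.2.2 j, ?_,
      fun z h w => ?_, fun z w => ?_⟩
    · have ha : ContDiff ℝ ∞ (fun x : V n × ℝ × V n => x.1 j) :=
        (contDiff_apply ℝ ℂ j).comp contDiff_fst
      have hb : ContDiff ℝ ∞ (fun x : V n × ℝ × V n => x.2.2 j) :=
        (contDiff_apply ℝ ℂ j).comp (contDiff_snd.comp contDiff_snd)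
      have hc : ContDiff ℝ ∞ (fun x : V n × ℝ × V n => (x.2.1 : ℂ)) :=
        Complex.ofRealCLM.contDiff.comp (contDiff_fst.comp contDiff_snd)
      have hd : ContDiff ℝ ∞ (fun x : V n × ℝ × V n => MvPolynomial.eval x.1 p) :=
        (sm_eval p).comp contDiff_fst
      exact (h1.mul (ha.add (hc.mul hb))).add (hd.mul hb)
    · rw [map_mul, map_mul, MvPolynomial.eval_X, MvPolynomial.eval_X, h2, Pi.add_apply,
        Pi.smul_apply, smul_eq_mul]
      ring
    · show D1 (z, 0, w) * (z j + ((0 : ℝ) : ℂ) * w j) + MvPolynomial.eval z p * w j = _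
      rw [h3, Complex.ofReal_zero, zero_mul, add_zero, Finset.sum_mul]
      have h4 : ∀ i ∈ (Finset.univ : Finset (Fin n)),
          w i * MvPolynomial.eval z (MvPolynomial.pderiv i (p * MvPolynomial.X j)) =
          w i * MvPolynomial.eval z (MvPolynomial.pderiv i p) * z j +
            (if i = j then w i * MvPolynomial.eval z p else 0) := by
        intro i _
        rw [MvPolynomial.pderiv_mul, map_add, map_mul, map_mul, MvPolynomial.eval_X,
          MvPolynomial.pderiv_X]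
        by_cases hij : i = j
        · subst hij
          rw [Pi.single_eq_same, map_one, if_pos rfl]
          ring
        · rw [Pi.single_eq_of_ne (Ne.symm hij), map_zero, if_neg hij]
          ring
      rw [Finset.sum_congr rfl h4, Finset.sum_add_distrib, Finset.sum_ite_eq' Finset.univ j,
        if_pos (Finset.mem_univ _)]
      ring

theorem eval_hom {n : ℕ} (Q : Pol n) (i : ℕ) (b : ℂ) (w : V n) :
    MvPolynomial.eval (b • w) (MvPolynomial.homogeneousComponent i Q) =
      b ^ i * MvPolynomial.eval w (MvPolynomial.homogeneousComponent i Q) := by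
  rw [MvPolynomial.eval_eq', MvPolynomial.eval_eq', Finset.mul_sum]
  refine Finset.sum_congr rfl fun m hm => ?_
  have h1 : m.degree = i := by
    rw [MvPolynomial.mem_support_iff, MvPolynomial.coeff_homogeneousComponent] at hm
    by_contra h
    rw [if_neg h] at hm
    exact hm rfl
  have h2 : ∏ j, (b • w) j ^ m j = b ^ i * ∏ j, w j ^ m j := by
    rw [← h1, Finsupp.degree_eq_sum, ← Finset.prod_pow_eq_pow_sum, ← Finset.prod_mul_distrib]
    refine Finset.prod_congr rfl fun j _ => ?_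
    rw [Pi.smul_apply, smul_eq_mul, mul_pow]
  rw [h2]
  ring

/-- the smooth equation -/
theorem exists_G {n : ℕ} (P : Pol n) (hd : 1 ≤ P.totalDegree) :
    ∃ G : (V n × ℝ) × ℂ → ℂ, ContDiff ℝ ∞ G ∧
      (∀ (z : V n) (s : ℂ), G ((z, 0), s) =
        s * (∑ j, (‖MvPolynomial.eval z (MvPolynomial.pderiv j (lead P))‖ ^ 2 : ℝ)) +
          MvPolynomial.eval z (MvPolynomial.homogeneousComponent (P.totalDegree - 1) (star P))) ∧
      ∀ (z : V n) (B : ℝ) (s : ℂ), 0 < B →
        MvPolynomial.eval ((B : ℂ) • z + s • cg P z) (star P) =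
          (B : ℂ) ^ P.totalDegree * pv P z + (B : ℂ) ^ (P.totalDegree - 1) * G ((z, B⁻¹), s) := by
  obtain ⟨D, hD1, hD2, hD3⟩ := divdiff (lead P)
  set d := P.totalDegree with hdd
  have hcg : ContDiff ℝ ∞ (fun z : V n => cg P z) := by
    rw [contDiff_pi]
    intro j
    exact Complex.conjCLE.contDiff.comp (sm_eval (MvPolynomial.pderiv j (lead P)))
  have hz : ContDiff ℝ ∞ (fun x : (V n × ℝ) × ℂ => x.1.1) := contDiff_fst.comp contDiff_fst
  have hh : ContDiff ℝ ∞ (fun x : (V n × ℝ) × ℂ => x.1.2) := contDiff_snd.comp contDiff_fst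
  have hs : ContDiff ℝ ∞ (fun x : (V n × ℝ) × ℂ => x.2) := contDiff_snd
  have hhc : ContDiff ℝ ∞ (fun x : (V n × ℝ) × ℂ => ((x.1.2 : ℝ) : ℂ)) :=
    Complex.ofRealCLM.contDiff.comp hh
  have hw : ContDiff ℝ ∞ (fun x : (V n × ℝ) × ℂ => x.2 • cg P x.1.1) := hs.smul (hcg.comp hz)
  refine ⟨fun x => D (x.1.1, x.1.2, x.2 • cg P x.1.1) + ∑ i ∈ Finset.range d,
    ((x.1.2 : ℝ) : ℂ) ^ (d - 1 - i) * MvPolynomial.eval (x.1.1 + ((x.1.2 : ℝ) : ℂ) • (x.2 • cg P x.1.1))
      (MvPolynomial.homogeneousComponent i (star P)), ?_, ?_, ?_⟩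
  · refine (hD1.comp (hz.prodMk (hh.prodMk hw))).add ?_
    refine ContDiff.sum fun i _ => ?_
    exact (hhc.pow _).mul ((sm_eval _).comp (hz.add (hhc.smul hw)))
  · intro z s
    show D (z, 0, s • cg P z) + ∑ i ∈ Finset.range d, ((0 : ℝ) : ℂ) ^ (d - 1 - i) *
      MvPolynomial.eval (z + ((0 : ℝ) : ℂ) • (s • cg P z)) _ = _
    rw [hD3, Complex.ofReal_zero, zero_smul, add_zero]
    congr 1
    · rw [Complex.ofReal_sum, Finset.mul_sum]
      refine Finset.sum_congr rfl fun j _ => ?_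
      rw [Pi.smul_apply, smul_eq_mul, mul_assoc]
      congr 1
      show starRingEnd ℂ (MvPolynomial.eval z (MvPolynomial.pderiv j (lead P))) *
        MvPolynomial.eval z (MvPolynomial.pderiv j (lead P)) = _
      rw [mul_comm, Complex.mul_conj, Complex.normSq_eq_norm_sq]
    · rw [Finset.sum_eq_single (d - 1)]
      · rw [Nat.sub_self, pow_zero, one_mul]
      · intro i hi hne
        have : d - 1 - i ≠ 0 := by
          have := Finset.mem_range.1 hi
          omega
        rw [zero_pow this, zero_mul]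
      · intro h
        exact absurd (Finset.mem_range.2 (by omega)) h
  · intro z B s hB
    have hB' : (B : ℂ) ≠ 0 := by exact_mod_cast hB.ne'
    show _ = _ + (B : ℂ) ^ (d - 1) * (D (z, B⁻¹, s • cg P z) + ∑ i ∈ Finset.range d,
      ((B⁻¹ : ℝ) : ℂ) ^ (d - 1 - i) * MvPolynomial.eval (z + ((B⁻¹ : ℝ) : ℂ) • (s • cg P z))
        (MvPolynomial.homogeneousComponent i (star P)))
    set w : V n := z + ((B⁻¹ : ℝ) : ℂ) • (s • cg P z) with hwd
    have hBw : (B : ℂ) • z + s • cg P z = (B : ℂ) • w := by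
      rw [hwd, smul_add, smul_smul (B : ℂ), Complex.ofReal_inv, mul_inv_cancel₀ hB', one_smul]
    have hdeg : (star P).totalDegree ≤ d :=
      MvPolynomial.totalDegree_le_of_support_subset (MvPolynomial.support_map_subset _ _)
    have hsum : star P = ∑ i ∈ Finset.range (d + 1),
        MvPolynomial.homogeneousComponent i (star P) := by
      rw [← Finset.sum_subset (Finset.range_mono (Nat.succ_le_succ hdeg))]
      · exact (MvPolynomial.sum_homogeneousComponent (star P)).symm
      · intro i _ hi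
        apply MvPolynomial.homogeneousComponent_eq_zero
        have := mt Finset.mem_range.2 hi
        omega
    have h1 : MvPolynomial.eval ((B : ℂ) • w) (star P) = ∑ i ∈ Finset.range (d + 1),
        (B : ℂ) ^ i * MvPolynomial.eval w (MvPolynomial.homogeneousComponent i (star P)) := by
      conv_lhs => rw [hsum]
      rw [map_sum]
      exact Finset.sum_congr rfl fun i _ => eval_hom _ _ _ _
    have h2 : MvPolynomial.eval w (lead P) = pv P z + (B : ℂ)⁻¹ * D (z, B⁻¹, s • cg P z) := by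
      have h3 := hD2 z B⁻¹ (s • cg P z)
      rw [Complex.ofReal_inv] at h3
      rw [hwd, Complex.ofReal_inv]
      exact h3
    have h4 : ∀ i ∈ Finset.range d, (B : ℂ) ^ i * MvPolynomial.eval w
        (MvPolynomial.homogeneousComponent i (star P)) = (B : ℂ) ^ (d - 1) *
          (((B⁻¹ : ℝ) : ℂ) ^ (d - 1 - i) * MvPolynomial.eval w
            (MvPolynomial.homogeneousComponent i (star P))) := by
      intro i hi
      have hi' := Finset.mem_range.1 hi
      have h5 : (B : ℂ) ^ (d - 1) = (B : ℂ) ^ i * (B : ℂ) ^ (d - 1 - i) := by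
        rw [← pow_add]
        congr 1
        omega
      rw [h5, Complex.ofReal_inv, inv_pow]
      have h6 : (B : ℂ) ^ (d - 1 - i) ≠ 0 := pow_ne_zero _ hB'
      field_simp
    rw [hBw, h1, Finset.sum_range_succ, Finset.sum_congr rfl h4, ← Finset.mul_sum]
    have h7 : MvPolynomial.eval w (MvPolynomial.homogeneousComponent d (star P)) =
        pv P z + (B : ℂ)⁻¹ * D (z, B⁻¹, s • cg P z) := h2
    rw [h7]
    have h8 : (B : ℂ) ^ d = (B : ℂ) ^ (d - 1) * B := by
      rw [← pow_succ]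
      congr 1
      omega
    rw [h8]
    field_simp
    ring

theorem nm_cont (n : ℕ) : Continuous (fun z : V n => nm z) := by
  unfold nm
  refine Real.continuous_sqrt.comp ?_
  refine continuous_finset_sum _ fun j _ => ?_
  exact ((continuous_apply j).norm).pow 2

theorem norm_le_nm {n : ℕ} (z : V n) : ‖z‖ ≤ nm z := by
  have h0 : 0 ≤ nm z := Real.sqrt_nonneg _
  rw [pi_norm_le_iff_of_nonneg h0]
  intro j
  unfold nm
  apply Real.le_sqrt_of_sq_le
  exact Finset.single_le_sum (f := fun j => ‖z j‖ ^ 2) (fun i _ => sq_nonneg _)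
    (Finset.mem_univ j)

theorem main (hI : S_IFTG) : S_ROOT := by
  intro n P hd hG
  obtain ⟨G, hGs, hG0, hGe⟩ := exists_G P hd
  have hpc : Continuous (fun z : V n => pv P z) := (sm_eval (lead P)).continuous
  have hnc := nm_cont n
  -- the compact set
  set K : Set (V n × ℝ) := {x | nm x.1 = 1 ∧ pv P x.1 = 0 ∧ x.2 = 0} with hK
  have hsph : IsCompact {x : V n × ℝ | nm x.1 = 1 ∧ 0 ≤ x.2 ∧ x.2 ≤ 1} := by
    apply Metric.isCompact_of_isClosed_isBounded
    · refine (isClosed_eq (hnc.comp continuous_fst) continuous_const).inter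
        ((isClosed_le continuous_const continuous_snd).inter
          (isClosed_le continuous_snd continuous_const))
    · refine (Metric.isBounded_closedBall (x := (0 : V n × ℝ)) (r := 1)).subset ?_
      rintro ⟨z, h⟩ ⟨h1, h2, h3⟩
      rw [mem_closedBall_zero_iff, Prod.norm_def]
      refine max_le ?_ ?_
      · exact (norm_le_nm z).trans h1.le
      · rw [Real.norm_eq_abs, abs_of_nonneg h2]
        exact h3
  have hKc : IsCompact K := by
    refine hsph.of_isClosed_subset ?_ ?_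
    · exact (isClosed_eq (hnc.comp continuous_fst) continuous_const).inter
        ((isClosed_eq (hpc.comp continuous_fst) continuous_const).inter
          (isClosed_eq continuous_snd continuous_const))
    · rintro ⟨z, h⟩ ⟨h1, h2, h3⟩
      refine ⟨h1, ?_, ?_⟩
      · exact (show h = 0 from h3).ge
      · rw [show h = 0 from h3]
        exact zero_le_one
  set N : V n → ℝ := fun z => ∑ j, ‖MvPolynomial.eval z (MvPolynomial.pderiv j (lead P))‖ ^ 2
    with hN
  have hNc : Continuous N := by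
    refine continuous_finset_sum _ fun j _ => ?_
    exact ((sm_eval _).continuous.norm).pow 2
  have hNpos : ∀ x ∈ K, N x.1 ≠ 0 := by
    rintro ⟨z, h⟩ ⟨h1, h2, h3⟩
    have hz : z ≠ 0 := by
      rintro rfl
      have : nm (0 : V n) = 0 := by
        unfold nm
        simp
      rw [this] at h1
      exact zero_ne_one h1
    obtain ⟨i, hi⟩ := hG z hz h2
    refine ne_of_gt (Finset.sum_pos' (fun j _ => sq_nonneg _) ⟨i, Finset.mem_univ _, ?_⟩)
    exact pow_pos (norm_pos_iff.2 hi) 2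
  set Q : V n → ℂ := fun z => MvPolynomial.eval z
    (MvPolynomial.homogeneousComponent (P.totalDegree - 1) (star P)) with hQ
  have hQc : Continuous Q := (sm_eval _).continuous
  set s₀ : V n × ℝ → ℂ := fun x => -Q x.1 / ((N x.1 : ℝ) : ℂ) with hs₀
  have hs₀c : ContinuousOn s₀ K := by
    refine ContinuousOn.div ?_ ?_ ?_
    · exact ((hQc.comp continuous_fst).neg).continuousOn
    · exact (Complex.continuous_ofReal.comp (hNc.comp continuous_fst)).continuousOn
    · intro x hx
      exact_mod_cast hNpos x hx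
  obtain ⟨U, s, hU, hKU, hss, _, hsG⟩ := hI (V n × ℝ) G K s₀ hGs hKc hs₀c (by
      rintro ⟨z, h⟩ hx
      have h1 := hNpos _ hx
      obtain ⟨_, _, h3⟩ := hx
      have h3' : h = 0 := h3
      subst h3'
      rw [hG0]
      show (-Q z / ((N z : ℝ) : ℂ)) * ((N z : ℝ) : ℂ) + Q z = 0
      have h4 : ((N z : ℝ) : ℂ) ≠ 0 := by exact_mod_cast h1
      rw [div_mul_cancel₀ _ h4]
      ring) (by
      rintro ⟨z, h⟩ hx
      have h1 := hNpos _ hx
      obtain ⟨_, _, h3⟩ := hx
      have h3' : h = 0 := h3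
      subst h3'
      refine ⟨((N z : ℝ) : ℂ), by exact_mod_cast h1, ?_⟩
      have h5 : (fun s : ℂ => G ((z, 0), s)) = fun s => s * ((N z : ℝ) : ℂ) + Q z := by
        funext s
        exact hG0 z s
      rw [h5]
      exact ((hasFDerivAt_id (𝕜 := ℝ) (s₀ (z, 0))).mul_const ((N z : ℝ) : ℂ)).add_const (Q z))
  obtain ⟨K₂, hK₂, hKK₂, hK₂U⟩ := exists_compact_between hKc hU hKU
  -- the size of the neighbourhood
  obtain ⟨ε, hε, hε1, hεK⟩ : ∃ ε : ℝ, 0 < ε ∧ ε ≤ 1 ∧ ∀ x : V n × ℝ, nm x.1 = 1 →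
      ‖pv P x.1‖ ≤ ε → 0 ≤ x.2 → x.2 ≤ ε → x ∈ interior K₂ := by
    set φ : V n × ℝ → ℝ := fun x => max ‖pv P x.1‖ x.2 with hφ
    have hφc : Continuous φ := ((hpc.comp continuous_fst).norm).max continuous_snd
    have hC : IsCompact ({x : V n × ℝ | nm x.1 = 1 ∧ 0 ≤ x.2 ∧ x.2 ≤ 1} \ interior K₂) :=
      hsph.diff isOpen_interior
    rcases ({x : V n × ℝ | nm x.1 = 1 ∧ 0 ≤ x.2 ∧ x.2 ≤ 1} \ interior K₂).eq_empty_or_nonempty
      with he | hne
    · refine ⟨1, one_pos, le_rfl, fun x h1 _ h3 h4 => ?_⟩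
      by_contra hx
      have : x ∈ ({x : V n × ℝ | nm x.1 = 1 ∧ 0 ≤ x.2 ∧ x.2 ≤ 1} \ interior K₂) :=
        ⟨⟨h1, h3, h4⟩, hx⟩
      rw [he] at this
      exact this
    · obtain ⟨x₀, hx₀, hmin⟩ := hC.exists_isMinOn hne hφc.continuousOn
      have hpos : 0 < φ x₀ := by
        by_contra hle
        push Not at hle
        have h1 : ‖pv P x₀.1‖ ≤ 0 := (le_max_left _ _).trans hle
        have h2 : x₀.2 ≤ 0 := (le_max_right _ _).trans hle
        apply hx₀.2
        apply hKK₂
        exact ⟨hx₀.1.1, norm_le_zero_iff.1 h1, le_antisymm h2 hx₀.1.2.1⟩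
      refine ⟨min (φ x₀ / 2) 1, by positivity, min_le_right _ _, fun x h1 h2 h3 h4 => ?_⟩
      by_contra hx
      have h5 : φ x₀ ≤ φ x := hmin ⟨⟨h1, h3, h4.trans (min_le_right _ _)⟩, hx⟩
      have h6 : φ x ≤ φ x₀ / 2 := max_le (h2.trans (min_le_left _ _)) (h4.trans (min_le_left _ _))
      linarith
  -- the cutoff
  have hclt : IsClosed {x : V n × ℝ | nm x.1 = 1 ∧ ‖pv P x.1‖ ≤ ε ∧ 0 ≤ x.2 ∧ x.2 ≤ ε} :=
    (isClosed_eq (hnc.comp continuous_fst) continuous_const).inter
      ((isClosed_le ((hpc.comp continuous_fst).norm) continuous_const).inter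
        ((isClosed_le continuous_const continuous_snd).inter
          (isClosed_le continuous_snd continuous_const)))
  obtain ⟨χ, hχ0, hχ1, _⟩ := exists_contMDiffMap_zero_one_of_isClosed (n := (⊤ : ℕ∞))
    (modelWithCornersSelf ℝ (V n × ℝ)) (s := (interior K₂)ᶜ)
    (t := {x : V n × ℝ | nm x.1 = 1 ∧ ‖pv P x.1‖ ≤ ε ∧ 0 ≤ x.2 ∧ x.2 ≤ ε})
    isOpen_interior.isClosed_compl hclt (by
      rw [Set.disjoint_left]
      rintro x hx ⟨h1, h2, h3, h4⟩
      exact hx (hεK x h1 h2 h3 h4))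
  have hχs : ContDiff ℝ ∞ (χ : V n × ℝ → ℝ) := χ.contMDiff.contDiff
  set T : V n × ℝ → ℂ := fun x => ((χ x : ℝ) : ℂ) * s x with hT
  have hTs : ContDiff ℝ ∞ T := by
    rw [contDiff_iff_contDiffAt]
    intro x
    by_cases hx : x ∈ U
    · refine ContDiffAt.mul ?_ ?_
      · exact (Complex.ofRealCLM.contDiff.comp hχs).contDiffAt
      · exact hss.contDiffAt (hU.mem_nhds hx)
    · have hx2 : x ∈ K₂ᶜ := fun h => hx (hK₂U h)
      have h1 : T =ᶠ[𝓝 x] fun _ => 0 := by
        filter_upwards [hK₂.isClosed.isOpen_compl.mem_nhds hx2] with y hy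
        have h2 : χ y = 0 := hχ0 (fun h => hy (interior_subset h))
        show ((χ y : ℝ) : ℂ) * s y = 0
        rw [h2, Complex.ofReal_zero, zero_mul]
      exact contDiffAt_const.congr_of_eventuallyEq h1
  have hTc : HasCompactSupport T := by
    refine HasCompactSupport.intro hK₂ fun y hy => ?_
    have h2 : χ y = 0 := hχ0 (fun h => hy (interior_subset h))
    show ((χ y : ℝ) : ℂ) * s y = 0
    rw [h2, Complex.ofReal_zero, zero_mul]
  obtain ⟨C₁, hC₁⟩ := hTs.continuous.bounded_above_of_compact_support hTc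
  obtain ⟨C₂, hC₂⟩ := (hTs.continuous_fderiv (by simp)).bounded_above_of_compact_support
    (hTc.fderiv ℝ)
  refine ⟨ε, max 1 (max C₁ C₂), max 1 ε⁻¹, hε, by positivity, le_max_left _ _, fun B hB => ?_⟩
  have hB1 : 1 ≤ B := (le_max_left _ _).trans hB
  have hB0 : 0 < B := by linarith
  have hBε : B⁻¹ ≤ ε := inv_le_of_inv_le₀ hε ((le_max_right _ _).trans hB)
  have hder : ∀ z : V n, HasFDerivAt (fun z : V n => T (z, B⁻¹))
      ((fderiv ℝ T (z, B⁻¹)).comp (ContinuousLinearMap.inl ℝ (V n) ℝ)) z := by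
    intro z
    have h1 : HasFDerivAt T (fderiv ℝ T (z, B⁻¹)) (z, B⁻¹) :=
      (hTs.differentiable (by simp) _).hasFDerivAt
    have h2 : HasFDerivAt (fun z : V n => (z, B⁻¹)) (ContinuousLinearMap.inl ℝ (V n) ℝ) z :=
      hasFDerivAt_prodMk_left z B⁻¹
    exact h1.comp z h2
  refine ⟨fun z => T (z, B⁻¹), hTs.comp (contDiff_id.prodMk contDiff_const), fun z => ?_,
    fun z => ?_, fun z h1 h2 => ?_⟩
  · exact (hC₁ _).trans ((le_max_left _ _).trans (le_max_right _ _))
  · rw [(hder z).fderiv]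
    refine (ContinuousLinearMap.opNorm_comp_le _ _).trans ?_
    have h3 : ‖ContinuousLinearMap.inl ℝ (V n) ℝ‖ ≤ 1 := ContinuousLinearMap.norm_inl_le_one _ _ _
    have h4 : ‖fderiv ℝ T (z, B⁻¹)‖ ≤ max 1 (max C₁ C₂) :=
      (hC₂ _).trans ((le_max_right _ _).trans (le_max_right _ _))
    calc ‖fderiv ℝ T (z, B⁻¹)‖ * ‖ContinuousLinearMap.inl ℝ (V n) ℝ‖
        ≤ ‖fderiv ℝ T (z, B⁻¹)‖ * 1 := mul_le_mul_of_nonneg_left h3 (norm_nonneg _)
      _ ≤ _ := by rw [mul_one]; exact h4
  · have hBi : 0 ≤ B⁻¹ := (inv_pos.2 hB0).le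
    have h3 : ((z, B⁻¹) : V n × ℝ) ∈ interior K₂ := hεK _ h1 h2 hBi hBε
    have h4 : χ (z, B⁻¹) = 1 := hχ1 ⟨h1, h2, hBi, hBε⟩
    have h5 : T (z, B⁻¹) = s (z, B⁻¹) := by
      show ((χ (z, B⁻¹) : ℝ) : ℂ) * s (z, B⁻¹) = _
      rw [h4, Complex.ofReal_one, one_mul]
    show MvPolynomial.eval ((B : ℂ) • z + T (z, B⁻¹) • cg P z) (star P) = _
    rw [hGe z B _ hB0, h5, hsG _ (hK₂U (interior_subset h3)), mul_zero, add_zero]

end Pool.Agent.Helper67.FN.ROOT
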